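import Pool.Agent.H10.ALG.Targets

/-!
# The two distributions on one block
-/

set_option autoImplicit false

namespace Pool.Agent.H50.ALG

open Pool.Agent.H10.ALG

variable {B : Type} [Fintype B] [DecidableEq B]

theorem cnt_in (i : B) (E : Finset B) (hi : i ∉ E) :
    (Finset.univ.filter fun a : Finset B => i ∈ a ∧ a ⊆ insert i E).card = 2 ^ E.card := by
  have h1 : (Finset.univ.filter fun a : Finset B => i ∈ a ∧ a ⊆ insert i E) =
      E.powerset.image (insert i) := by
    ext a
    simp only [Finset.mem_filter, Finset.mem_univ, true_and, Finset.mem_image,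
      Finset.mem_powerset]
    constructor
    · rintro ⟨h1, h2⟩
      refine ⟨a.erase i, ?_, Finset.insert_erase h1⟩
      intro x hx
      obtain ⟨h3, h4⟩ := Finset.mem_erase.1 hx
      rcases Finset.mem_insert.1 (h2 h4) with h5 | h5
      · exact absurd h5 h3
      · exact h5
    · rintro ⟨a', h1, rfl⟩
      exact ⟨Finset.mem_insert_self i a', Finset.insert_subset_insert i h1⟩
  rw [h1, Finset.card_image_of_injOn, Finset.card_powerset]
  intro a ha b hb hab
  have ha' : a ⊆ E := Finset.mem_powerset.1 ha
  have hb' : b ⊆ E := Finset.mem_powerset.1 hb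
  have h2 : (insert i a).erase i = (insert i b).erase i := congrArg (fun z => z.erase i) hab
  rwa [Finset.erase_insert (fun h => hi (ha' h)), Finset.erase_insert (fun h => hi (hb' h))] at h2

theorem cnt_sub (E : Finset B) :
    (Finset.univ.filter fun a : Finset B => a ⊆ E).card = 2 ^ E.card := by
  have h1 : (Finset.univ.filter fun a : Finset B => a ⊆ E) = E.powerset := by
    ext a
    simp
  rw [h1, Finset.card_powerset]

theorem cnt_dis (D : Finset B) :
    (Finset.univ.filter fun b : Finset B => Disjoint b D).card = 2 ^ (Fintype.card B - D.card) := by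
  have h1 : (Finset.univ.filter fun b : Finset B => Disjoint b D) =
      Finset.univ.filter fun b : Finset B => b ⊆ Dᶜ := by
    ext b
    simp only [Finset.mem_filter, Finset.mem_univ, true_and, Finset.subset_compl_iff_disjoint_right]
  rw [h1, cnt_sub, Finset.card_compl]

omit [DecidableEq B] in
theorem cnt_prod {P Q : Finset B → Prop} [DecidablePred P] [DecidablePred Q] :
    (Finset.univ.filter fun p : Blk B => P p.1 ∧ Q p.2).card =
      (Finset.univ.filter P).card * (Finset.univ.filter Q).card := by
  rw [← Finset.card_product]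
  congr 1
  ext p
  simp [Finset.mem_product]

theorem sum_mu0 : ∑ p : Blk B, mu0 p = 1 := by
  unfold mu0
  rw [← Finset.mul_sum]
  have h1 : ∑ p : Blk B, ((Finset.univ.filter fun D : Finset B =>
      p.1 ⊆ D ∧ Disjoint p.2 D).card : ℝ) = 4 ^ Fintype.card B := by
    have h2 : ∑ p : Blk B, (Finset.univ.filter fun D : Finset B =>
        p.1 ⊆ D ∧ Disjoint p.2 D).card = ∑ D : Finset B, (Finset.univ.filter fun p : Blk B =>
        p.1 ⊆ D ∧ Disjoint p.2 D).card := by
      simp only [Finset.card_filter]
      rw [Finset.sum_comm]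
    have h3 : ∀ D : Finset B, (Finset.univ.filter fun p : Blk B =>
        p.1 ⊆ D ∧ Disjoint p.2 D).card = 2 ^ Fintype.card B := by
      intro D
      rw [cnt_prod (P := fun a => a ⊆ D) (Q := fun b => Disjoint b D), cnt_sub, cnt_dis, ← pow_add]
      congr 1
      have := Finset.card_le_univ D
      omega
    have h4 : ∑ p : Blk B, (Finset.univ.filter fun D : Finset B =>
        p.1 ⊆ D ∧ Disjoint p.2 D).card = 4 ^ Fintype.card B := by
      rw [h2, Finset.sum_congr rfl (fun D _ => h3 D), Finset.sum_const, Finset.card_univ,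
        Fintype.card_finset, smul_eq_mul, ← mul_pow]
      norm_num
    exact_mod_cast h4
  rw [h1, ← mul_pow]
  norm_num

theorem sum_mu1 [Nonempty B] : ∑ p : Blk B, mu1 p = 1 := by
  unfold mu1
  rw [← Finset.mul_sum]
  have hY : 1 ≤ Fintype.card B := Fintype.card_pos
  have h1 : ∑ p : Blk B, ∑ i : B, (Finset.univ.filter fun D : Finset B =>
      i ∉ D ∧ i ∈ p.1 ∧ p.1 ⊆ insert i D ∧ i ∈ p.2 ∧ Disjoint p.2 D).card =
      Fintype.card B * 4 ^ (Fintype.card B - 1) := by
    rw [Finset.sum_comm]
    have h2 : ∀ i : B, ∑ p : Blk B, (Finset.univ.filter fun D : Finset B =>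
        i ∉ D ∧ i ∈ p.1 ∧ p.1 ⊆ insert i D ∧ i ∈ p.2 ∧ Disjoint p.2 D).card =
        4 ^ (Fintype.card B - 1) := by
      intro i
      have h3 : ∑ p : Blk B, (Finset.univ.filter fun D : Finset B =>
          i ∉ D ∧ i ∈ p.1 ∧ p.1 ⊆ insert i D ∧ i ∈ p.2 ∧ Disjoint p.2 D).card =
          ∑ D : Finset B, (Finset.univ.filter fun p : Blk B =>
          i ∉ D ∧ i ∈ p.1 ∧ p.1 ⊆ insert i D ∧ i ∈ p.2 ∧ Disjoint p.2 D).card := by
        simp only [Finset.card_filter]
        rw [Finset.sum_comm]
      rw [h3]
      have h4 : ∀ D : Finset B, (Finset.univ.filter fun p : Blk B =>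
          i ∉ D ∧ i ∈ p.1 ∧ p.1 ⊆ insert i D ∧ i ∈ p.2 ∧ Disjoint p.2 D).card =
          if i ∉ D then 2 ^ (Fintype.card B - 1) else 0 := by
        intro D
        by_cases hi : i ∈ D
        · rw [if_neg (not_not.2 hi), Finset.card_eq_zero, Finset.filter_eq_empty_iff]
          rintro p - ⟨h, -⟩
          exact h hi
        · rw [if_pos hi]
          have h5 : (Finset.univ.filter fun p : Blk B =>
              i ∉ D ∧ i ∈ p.1 ∧ p.1 ⊆ insert i D ∧ i ∈ p.2 ∧ Disjoint p.2 D) =
              Finset.univ.filter fun p : Blk B =>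
              (i ∈ p.1 ∧ p.1 ⊆ insert i D) ∧ (i ∈ p.2 ∧ p.2 ⊆ insert i (insert i D)ᶜ) := by
            ext p
            simp only [Finset.mem_filter, Finset.mem_univ, true_and]
            constructor
            · rintro ⟨-, h1, h2, h3, h4⟩
              refine ⟨⟨h1, h2⟩, h3, fun x hx => ?_⟩
              by_cases hxi : x = i
              · rw [hxi]
                exact Finset.mem_insert_self i _
              · refine Finset.mem_insert_of_mem ?_
                rw [Finset.mem_compl, Finset.mem_insert]
                rintro (h5 | h5)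
                · exact hxi h5
                · exact Finset.disjoint_left.1 h4 hx h5
            · rintro ⟨⟨h1, h2⟩, h3, h4⟩
              refine ⟨hi, h1, h2, h3, Finset.disjoint_left.2 fun x hx hxD => ?_⟩
              rcases Finset.mem_insert.1 (h4 hx) with h5 | h5
              · rw [h5] at hxD
                exact hi hxD
              · rw [Finset.mem_compl, Finset.mem_insert] at h5
                exact h5 (Or.inr hxD)
          rw [h5, cnt_prod (P := fun a => i ∈ a ∧ a ⊆ insert i D)
            (Q := fun b => i ∈ b ∧ b ⊆ insert i (insert i D)ᶜ), cnt_in i D hi,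
            cnt_in i (insert i D)ᶜ (by simp), ← pow_add, Finset.card_compl,
            Finset.card_insert_of_notMem hi]
          congr 1
          have h6 := Finset.card_le_univ (insert i D)
          rw [Finset.card_insert_of_notMem hi] at h6
          omega
      rw [Finset.sum_congr rfl (fun D _ => h4 D), ← Finset.sum_filter, Finset.sum_const]
      have h7 : (Finset.univ.filter fun D : Finset B => i ∉ D).card = 2 ^ (Fintype.card B - 1) := by
        have h8 : (Finset.univ.filter fun D : Finset B => i ∉ D) =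
            Finset.univ.filter fun D : Finset B => Disjoint D {i} := by
          ext D
          simp
        rw [h8, cnt_dis, Finset.card_singleton]
      rw [h7, smul_eq_mul, ← mul_pow]
      norm_num
    rw [Finset.sum_congr rfl (fun i _ => h2 i), Finset.sum_const, Finset.card_univ, smul_eq_mul]
  have h5 : ∑ p : Blk B, ∑ i : B, ((Finset.univ.filter fun D : Finset B =>
      i ∉ D ∧ i ∈ p.1 ∧ p.1 ⊆ insert i D ∧ i ∈ p.2 ∧ Disjoint p.2 D).card : ℝ) =
      Fintype.card B * 4 ^ (Fintype.card B - 1) := by
    exact_mod_cast h1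
  rw [h5]
  have hY0 : (Fintype.card B : ℝ) ≠ 0 := by
    have : (0 : ℝ) < Fintype.card B := by exact_mod_cast hY
    exact this.ne'
  obtain ⟨m, hm⟩ : ∃ m, Fintype.card B = m + 1 := ⟨Fintype.card B - 1, by omega⟩
  rw [hm, Nat.add_sub_cancel, ← hm]
  have h6 : (1 / 4 : ℝ) ^ Fintype.card B = 1 / (4 * 4 ^ m) := by
    rw [hm, one_div_pow, pow_succ]
    ring
  rw [h6]
  field_simp

theorem pf_MUP : T_MUP := by
  intro B _ _ _
  refine ⟨fun p => ?_, fun p => ?_, sum_mu0, sum_mu1, fun p hp => ?_, fun p hp => ?_⟩
  · unfold mu0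
    positivity
  · unfold mu1
    positivity
  · unfold mu0 at hp
    have h1 := right_ne_zero_of_mul hp
    have h2 : (Finset.univ.filter fun D : Finset B => p.1 ⊆ D ∧ Disjoint p.2 D).card ≠ 0 := by
      exact_mod_cast h1
    obtain ⟨D, hD⟩ := Finset.card_ne_zero.1 h2
    obtain ⟨-, h3, h4⟩ := Finset.mem_filter.1 hD
    exact (h4.mono_right h3).symm
  · unfold mu1 at hp
    have h1 := right_ne_zero_of_mul hp
    obtain ⟨i, -, hi⟩ := Finset.exists_ne_zero_of_sum_ne_zero h1
    have h2 : (Finset.univ.filter fun D : Finset B =>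
      i ∉ D ∧ i ∈ p.1 ∧ p.1 ⊆ insert i D ∧ i ∈ p.2 ∧ Disjoint p.2 D).card ≠ 0 := by
      exact_mod_cast hi
    obtain ⟨D, hD⟩ := Finset.card_ne_zero.1 h2
    obtain ⟨-, -, h3, h4, h5, h6⟩ := Finset.mem_filter.1 hD
    rw [Finset.card_eq_one]
    refine ⟨i, ?_⟩
    ext x
    rw [Finset.mem_inter, Finset.mem_singleton]
    constructor
    · rintro ⟨h7, h8⟩
      rcases Finset.mem_insert.1 (h4 h7) with h9 | h9
      · exact h9
      · exact absurd h9 (Finset.disjoint_left.1 h6 h8)
    · rintro rfl
      exact ⟨h3, h5⟩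

end Pool.Agent.H50.ALG
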